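import Pool.Agent.N81.Cay.Stm

/-!
Merging two cycles of a permutation (subtask CAY/A of helper81).
-/

namespace Pool.Agent.N319.CayA

open Equiv Equiv.Perm Pool.Agent.N81.Cay

universe u

variable {V : Type u}

theorem gen {f : Perm V} (T : V → V → Prop) (hr : ∀ x, T x x) (hs : ∀ x y, T x y → T y x)
    (ht : ∀ x y z, T x y → T y z → T x z) (h : ∀ x, T x (f x)) {x y : V}
    (hxy : f.SameCycle x y) : T x y := by
  have hp : ∀ (n : ℕ) (x : V), T x ((f ^ n) x) := by
    intro n
    induction n with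
    | zero => intro x; exact hr x
    | succ n ih =>
      intro x
      rw [pow_succ', Perm.mul_apply]
      exact ht _ _ _ (ih x) (h _)
  obtain ⟨i, rfl⟩ := hxy
  rcases i with n | n
  · exact hp n x
  · have h1 := hp (n + 1) ((f ^ (Int.negSucc n)) x)
    have e : (f ^ (n + 1)) ((f ^ (Int.negSucc n)) x) = x := by
      rw [zpow_negSucc]
      exact (f ^ (n + 1)).apply_symm_apply x
    rw [e] at h1
    exact hs _ _ h1

theorem mono {f g : Perm V} (h : ∀ x, g.SameCycle x (f x)) {x y : V} (hxy : f.SameCycle x y) :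
    g.SameCycle x y :=
  gen (fun x y => g.SameCycle x y) (fun _ => SameCycle.refl _ _) (fun _ _ h => h.symm)
    (fun _ _ _ h h' => h.trans h') h hxy

theorem reach [DecidableEq V] [Finite V] (ρ : Perm V) {a b : V} (hab : ¬ ρ.SameCycle a b) (x : V)
    (hx : ρ.SameCycle x a) : (ρ * swap a b).SameCycle x a := by
  obtain ⟨n, hn⟩ := hx.exists_nat_pow_eq
  induction n generalizing x with
  | zero =>
    have h0 : x = a := hn
    rw [h0]
  | succ n ih =>
    by_cases h1 : x = a
    · rw [h1]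
    have h2 : x ≠ b := by
      rintro rfl
      exact hab hx.symm
    have h3 : (ρ * swap a b) x = ρ x := by rw [Perm.mul_apply, swap_apply_of_ne_of_ne h1 h2]
    have h4 : ρ.SameCycle (ρ x) a := sameCycle_apply_left.2 hx
    have h5 : (ρ ^ n) (ρ x) = a := by rw [← hn, pow_succ, Perm.mul_apply]
    have h6 := ih (ρ x) h4 h5
    rw [← h3] at h6
    exact sameCycle_apply_left.1 h6

/-- the conclusion -/
def Concl (R : V → V → Prop) (ρ : Perm V) (p p' q q' : V) : Prop :=
  ∃ ρ' : Equiv.Perm V, (∀ x, ρ' (ρ' x) ≠ x) ∧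
      (∀ x, R x (ρ' x) ∨
        (Edge ρ x (ρ' x) ∧ s(x, ρ' x) ≠ s(p, p') ∧ s(x, ρ' x) ≠ s(q, q'))) ∧
      (∀ x y, Edge ρ x y → s(x, y) ≠ s(p, p') → s(x, y) ≠ s(q, q') → Edge ρ' x y) ∧
      (∀ x y, ρ'.SameCycle x y ↔ ρ.SameCycle x y ∨ (ρ.SameCycle x p ∧ ρ.SameCycle q y) ∨
        (ρ.SameCycle x q ∧ ρ.SameCycle p y))

theorem core [Finite V] (R : V → V → Prop) (hR : ∀ x y, R x y → R y x) (ρ : Perm V)
    (hρ : ∀ x, ρ (ρ x) ≠ x) (p p' q q' : V) (hp : ρ p = p') (hq : ρ q' = q)
    (hpq : ¬ ρ.SameCycle p q) (h1 : R p q) (h2 : R p' q') : Concl R ρ p p' q q' := by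
  classical
  have hpq' : ¬ ρ.SameCycle p q' := by
    intro h
    apply hpq
    rw [← hq]
    exact sameCycle_apply_right.2 h
  have hne : p ≠ q' := by
    rintro rfl
    exact hpq' (SameCycle.refl _ _)
  set ρ' : Perm V := ρ * swap p q' with hρ'
  have e1 : ρ' p = q := by rw [hρ', Perm.mul_apply, swap_apply_left, hq]
  have e2 : ρ' q' = p' := by rw [hρ', Perm.mul_apply, swap_apply_right, hp]
  have e3 : ∀ x, x ≠ p → x ≠ q' → ρ' x = ρ x := fun x hx hx' => by
    rw [hρ', Perm.mul_apply, swap_apply_of_ne_of_ne hx hx']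
  have cq : ρ.SameCycle q q' := by
    rw [← hq]
    exact sameCycle_apply_left.2 (SameCycle.refl _ _)
  have r1 : ∀ x, ρ.SameCycle x p → ρ'.SameCycle x p := fun x hx => reach ρ hpq' x hx
  have r2 : ∀ x, ρ.SameCycle x q' → ρ'.SameCycle x q' := fun x hx => by
    have := reach ρ (fun h => hpq' h.symm) x hx
    rwa [swap_comm] at this
  have r3 : ρ'.SameCycle p q' := by
    have h3 := r2 q cq
    rw [← e1] at h3
    exact sameCycle_apply_left.1 h3
  have r4 : ∀ x, ρ'.SameCycle x (ρ x) := by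
    intro x
    by_cases hx : x = p
    · subst hx
      rw [hp, ← e2]
      exact sameCycle_apply_right.2 r3
    by_cases hx' : x = q'
    · subst hx'
      rw [hq, ← e1]
      exact sameCycle_apply_right.2 r3.symm
    rw [← e3 x hx hx']
    exact sameCycle_apply_right.2 (SameCycle.refl _ _)
  refine ⟨ρ', fun x => ?_, fun x => ?_, fun x y hxy ha hb => ?_, fun x y => ⟨fun hxy => ?_, ?_⟩⟩
  · by_cases hx : x = p
    · subst hx
      rw [e1]
      by_cases hqq : q = q'
      · exfalso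
        have h3 : ρ q' = q' := hq.trans hqq
        exact hρ q' (by rw [h3, h3])
      · have hqp : q ≠ x := by
          rintro rfl
          exact hpq (SameCycle.refl _ _)
        rw [e3 q hqp hqq]
        intro h
        apply hpq
        have h3 : ρ.SameCycle q (ρ q) := sameCycle_apply_right.2 (SameCycle.refl _ _)
        rw [h] at h3
        exact h3.symm
    by_cases hx' : x = q'
    · subst hx'
      rw [e2]
      have h4 : p' ≠ p := by
        intro h
        apply hρ p
        rw [hp, h, hp, h]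
      have cp : ρ.SameCycle p p' := by
        rw [← hp]
        exact sameCycle_apply_right.2 (SameCycle.refl _ _)
      have h5 : p' ≠ x := by
        rintro rfl
        exact hpq' cp
      rw [e3 p' h4 h5]
      intro h
      apply hpq'
      have h3 : ρ.SameCycle p (ρ p') := sameCycle_apply_right.2 cp
      rwa [h] at h3
    rw [e3 x hx hx']
    by_cases hy : ρ x = p
    · rw [hy, e1]
      rintro rfl
      apply hpq
      have h3 : ρ.SameCycle q (ρ q) := sameCycle_apply_right.2 (SameCycle.refl _ _)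
      rw [hy] at h3
      exact h3.symm
    by_cases hy' : ρ x = q'
    · rw [hy', e2]
      rintro rfl
      apply hpq'
      have h3 : ρ.SameCycle p (ρ p') := sameCycle_apply_right.2 (by
        rw [← hp]
        exact sameCycle_apply_right.2 (SameCycle.refl _ _))
      rwa [hy'] at h3
    rw [e3 _ hy hy']
    exact hρ x
  · by_cases hx : x = p
    · subst hx
      rw [e1]
      exact Or.inl h1
    by_cases hx' : x = q'
    · subst hx'
      rw [e2]
      exact Or.inl (hR _ _ h2)
    right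
    rw [e3 x hx hx']
    refine ⟨Or.inl rfl, fun h => ?_, fun h => ?_⟩
    · rcases Sym2.eq_iff.1 h with ⟨h3, -⟩ | ⟨h3, h4⟩
      · exact hx h3
      · apply hρ p
        rw [hp, ← h3, h4]
    · rcases Sym2.eq_iff.1 h with ⟨h3, h4⟩ | ⟨h3, -⟩
      · apply hρ q'
        rw [hq, ← h3, h4]
      · exact hx' h3
  · have key : ∀ x y, ρ x = y → s(x, y) ≠ s(p, p') → s(x, y) ≠ s(q, q') → ρ' x = y := by
      intro x y hxy ha hb
      have hx : x ≠ p := by
        rintro rfl
        apply ha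
        rw [← hxy, hp]
      have hx' : x ≠ q' := by
        rintro rfl
        apply hb
        rw [← hxy, hq]
        exact Sym2.eq_swap
      rw [e3 x hx hx', hxy]
    rcases hxy with hxy | hxy
    · exact Or.inl (key x y hxy ha hb)
    · refine Or.inr (key y x hxy ?_ ?_)
      · rwa [Sym2.eq_swap]
      · rwa [Sym2.eq_swap]
  · refine gen (f := ρ') (fun x y => ρ.SameCycle x y ∨ (ρ.SameCycle x p ∧ ρ.SameCycle q y) ∨
        (ρ.SameCycle x q ∧ ρ.SameCycle p y)) (fun x => Or.inl (SameCycle.refl _ _)) ?_ ?_ ?_ hxy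
    · rintro x y (h | ⟨h, h'⟩ | ⟨h, h'⟩)
      · exact Or.inl h.symm
      · exact Or.inr (Or.inr ⟨h'.symm, h.symm⟩)
      · exact Or.inr (Or.inl ⟨h'.symm, h.symm⟩)
    · rintro x y z (h | ⟨h, h'⟩ | ⟨h, h'⟩) (k | ⟨k, k'⟩ | ⟨k, k'⟩)
      · exact Or.inl (h.trans k)
      · exact Or.inr (Or.inl ⟨h.trans k, k'⟩)
      · exact Or.inr (Or.inr ⟨h.trans k, k'⟩)
      · exact Or.inr (Or.inl ⟨h, h'.trans k⟩)
      · exact Or.inr (Or.inl ⟨h, k'⟩)
      · exact Or.inl (h.trans k')
      · exact Or.inr (Or.inr ⟨h, h'.trans k⟩)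
      · exact Or.inl (h.trans k')
      · exact Or.inr (Or.inr ⟨h, k'⟩)
    · intro x
      by_cases hx : x = p
      · subst hx
        rw [e1]
        exact Or.inr (Or.inl ⟨SameCycle.refl _ _, SameCycle.refl _ _⟩)
      by_cases hx' : x = q'
      · subst hx'
        rw [e2]
        refine Or.inr (Or.inr ⟨cq.symm, ?_⟩)
        rw [← hp]
        exact sameCycle_apply_right.2 (SameCycle.refl _ _)
      · left
        rw [e3 x hx hx']
        exact sameCycle_apply_right.2 (SameCycle.refl _ _)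
  · have kq : ρ'.SameCycle p q := by
      rw [← e1]
      exact sameCycle_apply_right.2 (SameCycle.refl _ _)
    rintro (h | ⟨h, h'⟩ | ⟨h, h'⟩)
    · exact mono r4 h
    · exact ((mono r4 h).trans kq).trans (mono r4 h')
    · exact ((mono r4 h).trans kq.symm).trans (mono r4 h')

theorem flip (ρ : Perm V) (q : V) : ∃ ρ₁ : Perm V, (∀ x y, Edge ρ₁ x y ↔ Edge ρ x y) ∧
    (∀ x y, ρ₁.SameCycle x y ↔ ρ.SameCycle x y) ∧ (∀ x, ρ.SameCycle q x → ρ₁ (ρ x) = x) ∧
    ∀ x, ¬ ρ.SameCycle q x → ρ₁ x = ρ x := by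
  classical
  have hs : ∀ x, ρ.SameCycle q (ρ.symm x) ↔ ρ.SameCycle q x := fun x =>
    sameCycle_symm_apply_right
  have hr : ∀ x, ρ.SameCycle q (ρ x) ↔ ρ.SameCycle q x := fun x => sameCycle_apply_right
  let ρ₁ : Perm V :=
    { toFun := fun x => if ρ.SameCycle q x then ρ.symm x else ρ x
      invFun := fun x => if ρ.SameCycle q x then ρ x else ρ.symm x
      left_inv := fun x => by
        by_cases h : ρ.SameCycle q x
        · simp only [h, if_true, hs, Equiv.apply_symm_apply]
        · simp only [h, if_false, hr, Equiv.symm_apply_apply]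
      right_inv := fun x => by
        by_cases h : ρ.SameCycle q x
        · simp only [h, if_true, hr, Equiv.symm_apply_apply]
        · simp only [h, if_false, hs, Equiv.apply_symm_apply] }
  have a1 : ∀ x, ρ.SameCycle q x → ρ₁ x = ρ.symm x := fun x h => if_pos h
  have a2 : ∀ x, ¬ ρ.SameCycle q x → ρ₁ x = ρ x := fun x h => if_neg h
  have a3 : ∀ x, ρ.SameCycle q x → ρ₁ (ρ x) = x := fun x h => by
    rw [a1 _ ((hr x).2 h), Equiv.symm_apply_apply]
  have key : ∀ x y, ρ₁ x = y → Edge ρ x y := by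
    rintro x y rfl
    by_cases h : ρ.SameCycle q x
    · right
      rw [a1 x h, Equiv.apply_symm_apply]
    · left
      rw [a2 x h]
  have key' : ∀ x y, ρ x = y → Edge ρ₁ x y := by
    rintro x y rfl
    by_cases h : ρ.SameCycle q x
    · right
      exact a3 x h
    · left
      exact a2 x h
  have es : ∀ (f : Perm V) x y, Edge f x y → f.SameCycle x y := by
    rintro f x y (h | h)
    · rw [← h]
      exact sameCycle_apply_right.2 (SameCycle.refl _ _)
    · rw [← h]
      exact sameCycle_apply_left.2 (SameCycle.refl _ _)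
  refine ⟨ρ₁, fun x y => ⟨?_, ?_⟩, fun x y => ⟨fun h => ?_, fun h => ?_⟩, a3, a2⟩
  · rintro (h | h)
    · exact key x y h
    · exact (key y x h).symm
  · rintro (h | h)
    · exact key' x y h
    · exact (key' y x h).symm
  · exact mono (fun x => es _ _ _ (key x _ rfl)) h
  · exact mono (fun x => es _ _ _ (key' x _ rfl)) h

theorem transfer {R : V → V → Prop} {ρ ρ₁ : Perm V} {p p' q q' : V}
    (he : ∀ x y, Edge ρ₁ x y ↔ Edge ρ x y) (hs : ∀ x y, ρ₁.SameCycle x y ↔ ρ.SameCycle x y)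
    (h : Concl R ρ₁ p p' q q') : Concl R ρ p p' q q' := by
  obtain ⟨ρ', h1, h2, h3, h4⟩ := h
  refine ⟨ρ', h1, fun x => ?_, fun x y hxy => h3 x y ((he x y).2 hxy), fun x y => ?_⟩
  · rcases h2 x with h | ⟨h, h'⟩
    · exact Or.inl h
    · exact Or.inr ⟨(he _ _).1 h, h'⟩
  · rw [h4]
    simp only [hs]

theorem exch {R : V → V → Prop} {ρ : Perm V} {p p' q q' : V} (hp : ρ.SameCycle p p')
    (hq : ρ.SameCycle q q') (h : Concl R ρ p' p q' q) : Concl R ρ p p' q q' := by
  obtain ⟨ρ', h1, h2, h3, h4⟩ := h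
  have ep : s(p', p) = s(p, p') := Sym2.eq_swap
  have eq' : s(q', q) = s(q, q') := Sym2.eq_swap
  rw [ep, eq'] at h2 h3
  have c1 : ∀ x, ρ.SameCycle x p' ↔ ρ.SameCycle x p := fun x =>
    ⟨fun h => h.trans hp.symm, fun h => h.trans hp⟩
  have c2 : ∀ x, ρ.SameCycle x q' ↔ ρ.SameCycle x q := fun x =>
    ⟨fun h => h.trans hq.symm, fun h => h.trans hq⟩
  have c3 : ∀ x, ρ.SameCycle p' x ↔ ρ.SameCycle p x := fun x =>
    ⟨fun h => hp.trans h, fun h => hp.symm.trans h⟩
  have c4 : ∀ x, ρ.SameCycle q' x ↔ ρ.SameCycle q x := fun x =>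
    ⟨fun h => hq.trans h, fun h => hq.symm.trans h⟩
  refine ⟨ρ', h1, h2, h3, fun x y => ?_⟩
  rw [h4, c1, c2, c3, c4]

/-- the case `ρ p = p'` -/
theorem half [Finite V] (R : V → V → Prop) (hR : ∀ x y, R x y → R y x) (ρ : Perm V)
    (hρ : ∀ x, ρ (ρ x) ≠ x) (p p' q q' : V) (hp : ρ p = p') (hq : Edge ρ q q')
    (hpq : ¬ ρ.SameCycle p q) (h1 : R p q) (h2 : R p' q') : Concl R ρ p p' q q' := by
  rcases hq with hq | hq
  · obtain ⟨ρ₁, a1, a2, a3, a4⟩ := flip ρ q
    refine transfer a1 a2 (core R hR ρ₁ (fun x hx => ?_) p p' q q' ?_ ?_ (fun h => hpq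
      ((a2 _ _).1 h)) h1 h2)
    · by_cases h : ρ.SameCycle q x
      · apply hρ x
        have hx1 : ρ.SameCycle q (ρ x) := sameCycle_apply_right.2 h
        have e1 : ρ₁ (ρ (ρ x)) = ρ x := a3 _ hx1
        have e2 : ρ₁ (ρ x) = x := a3 _ h
        have e3 : ρ₁ (ρ₁ (ρ (ρ x))) = x := by rw [e1, e2]
        apply ρ₁.injective
        apply ρ₁.injective
        rw [e3, hx]
      · apply hρ x
        have hx1 : ¬ ρ.SameCycle q (ρ x) := fun h' => h (sameCycle_apply_right.1 h')
        rw [← a4 _ hx1, ← a4 x h]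
        exact hx
    · rw [a4 p (fun h => hpq h.symm), hp]
    · rw [← hq]
      exact a3 q (SameCycle.refl _ _)
  · exact core R hR ρ hρ p p' q q' hp hq hpq h1 h2

theorem merge : S_merge := by
  intro V _ R hR ρ hρ p p' q q' hp hq hpq h1 h2
  have es : ∀ (f : Perm V) x y, Edge f x y → f.SameCycle x y := by
    rintro f x y (h | h)
    · rw [← h]
      exact sameCycle_apply_right.2 (SameCycle.refl _ _)
    · rw [← h]
      exact sameCycle_apply_left.2 (SameCycle.refl _ _)
  rcases hp with hp | hp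
  · exact half R hR ρ hρ p p' q q' hp hq hpq h1 h2
  · have cp : ρ.SameCycle p p' := es ρ p p' (Or.inr hp)
    have cq : ρ.SameCycle q q' := es ρ q q' hq
    refine exch cp cq (half R hR ρ hρ p' p q' q hp hq.symm (fun h => hpq ?_) h2 h1)
    exact (cp.trans h).trans cq.symm

end Pool.Agent.N319.CayA
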