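import Mathlib

set_option autoImplicit false
open Finset

namespace Pool.Agent.N319.PW

/-- The powerful part of `m`. -/
def Q2 (m : ℕ) : ℕ :=
  ∏ p ∈ m.primeFactors.filter (fun p => 2 ≤ m.factorization p), p ^ m.factorization p

/-- `n (n+1) ... (n+l)` -/
def P (l n : ℕ) : ℕ := ∏ i ∈ range (l + 1), (n + i)

def Pow2 (D : ℕ) : Prop := ∀ p : ℕ, p.Prime → p ∣ D → p ^ 2 ∣ D

theorem Q2_pos (m : ℕ) : 0 < Q2 m := by
  unfold Q2
  apply Finset.prod_pos
  intro p hp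
  have := Nat.pos_of_mem_primeFactors (mem_filter.1 hp).1
  positivity

theorem Q2_dvd (m : ℕ) : Q2 m ∣ m := by
  rcases Nat.eq_zero_or_pos m with rfl | hm
  · exact dvd_zero _
  · have h : m = ∏ p ∈ m.primeFactors, p ^ m.factorization p :=
      (Nat.prod_factorization_pow_eq_self hm.ne').symm
    conv_rhs => rw [h]
    exact Finset.prod_dvd_prod_of_subset _ _ _ (Finset.filter_subset _ _)

theorem pow_dvd_Q2 {m p : ℕ} (hm : m ≠ 0) (hp : p.Prime) (h2 : 2 ≤ m.factorization p) :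
    p ^ m.factorization p ∣ Q2 m := by
  have hmem : p ∈ m.primeFactors.filter (fun p => 2 ≤ m.factorization p) := by
    rw [mem_filter]
    refine ⟨?_, h2⟩
    rw [← Nat.support_factorization, Finsupp.mem_support_iff]
    omega
  exact Finset.dvd_prod_of_mem (fun p => p ^ m.factorization p) hmem

theorem dvd_Q2 {D m : ℕ} (hm : m ≠ 0) (hD : Pow2 D) (h : D ∣ m) : D ∣ Q2 m := by
  have hD0 : D ≠ 0 := fun h0 => hm (by rw [h0] at h; exact Nat.eq_zero_of_zero_dvd h)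
  rw [← Nat.factorization_le_iff_dvd hD0 (Q2_pos m).ne']
  intro p
  rcases Nat.eq_zero_or_pos (D.factorization p) with h0 | h0
  · rw [h0]; exact Nat.zero_le _
  · have hp : p.Prime := by
      by_contra hp
      rw [Nat.factorization_eq_zero_of_not_prime _ hp] at h0
      exact lt_irrefl _ h0
    have hpD : p ∣ D := Nat.dvd_of_factorization_pos h0.ne'
    have h2 : 2 ≤ D.factorization p := (hp.pow_dvd_iff_le_factorization hD0).1 (hD p hp hpD)
    have h3 : D.factorization p ≤ m.factorization p :=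
      (Nat.factorization_le_iff_dvd hD0 hm).2 h p
    have h4 := pow_dvd_Q2 hm hp (le_trans h2 h3)
    exact le_trans h3 ((hp.pow_dvd_iff_le_factorization (Q2_pos m).ne').1 h4)

theorem Q2_pow2 (m : ℕ) : Pow2 (Q2 m) := by
  intro p hp h
  unfold Q2 at h
  rw [hp.prime.dvd_finset_prod_iff] at h
  obtain ⟨q, hq, hpq⟩ := h
  rw [mem_filter] at hq
  have hqp : q.Prime := Nat.prime_of_mem_primeFactors hq.1
  have : p = q := (Nat.prime_dvd_prime_iff_eq hp hqp).1 (hp.dvd_of_dvd_pow hpq)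
  subst this
  have hm : m ≠ 0 := fun h0 => by rw [h0] at hq; simp at hq
  exact dvd_trans (pow_dvd_pow p hq.2) (pow_dvd_Q2 hm hp hq.2)

theorem Q2_mono {a b : ℕ} (hb : b ≠ 0) (h : a ∣ b) : Q2 a ≤ Q2 b :=
  Nat.le_of_dvd (Q2_pos b) (dvd_Q2 hb (Q2_pow2 a) (dvd_trans (Q2_dvd a) h))

theorem Q2_of_pow2 {a : ℕ} (ha : a ≠ 0) (h : Pow2 a) : Q2 a = a :=
  Nat.dvd_antisymm (Q2_dvd a) (dvd_Q2 ha h dvd_rfl)

theorem Pow2.mul {a b : ℕ} (ha : Pow2 a) (hb : Pow2 b) : Pow2 (a * b) := by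
  intro p hp h
  rcases (hp.dvd_mul).1 h with h | h
  · exact dvd_mul_of_dvd_left (ha p hp h) _
  · exact dvd_mul_of_dvd_right (hb p hp h) _

theorem pow2_sq (a : ℕ) : Pow2 (a ^ 2) := by
  intro p hp h
  exact pow_dvd_pow_of_dvd (hp.dvd_of_dvd_pow h) 2

/-- `N` times its squarefree part is powerful -/
theorem pow2_mul {N k : ℕ} (hN : N ≠ 0) (hk : N = Q2 N * k) : Pow2 (N * k) := by
  intro p hp h
  have hkN : k ∣ N := ⟨Q2 N, by rw [mul_comm]; exact hk⟩
  have hpN : p ∣ N := by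
    rcases (hp.dvd_mul).1 h with h | h
    · exact h
    · exact dvd_trans h hkN
  by_cases h2 : 2 ≤ N.factorization p
  · exact dvd_mul_of_dvd_left ((hp.pow_dvd_iff_le_factorization hN).2 h2) _
  · have hpk : p ∣ k := by
      rw [hk] at hpN
      rcases (hp.dvd_mul).1 hpN with h' | h'
      · exfalso
        have := Q2_pow2 N p hp h'
        exact h2 ((hp.pow_dvd_iff_le_factorization hN).1 (dvd_trans this (Q2_dvd N)))
      · exact h'
    rw [pow_two]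
    exact mul_dvd_mul (dvd_trans hpk hkN) hpk

/-! ### the Pell numbers -/

/-- `(1 + √2)^m = a + b √2` -/
def ab : ℕ → ℕ × ℕ
  | 0 => (1, 0)
  | m + 1 => ((ab m).1 + 2 * (ab m).2, (ab m).1 + (ab m).2)

def a (m : ℕ) : ℕ := (ab m).1
def b (m : ℕ) : ℕ := (ab m).2

theorem a_succ (m : ℕ) : a (m + 1) = a m + 2 * b m := rfl
theorem b_succ (m : ℕ) : b (m + 1) = a m + b m := rfl

theorem zpow (m : ℕ) : (⟨1, 1⟩ : ℤ√2) ^ m = ⟨(a m : ℤ), (b m : ℤ)⟩ := by
  induction m with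
  | zero => rw [pow_zero]; rfl
  | succ m ih =>
    rw [pow_succ, ih, Zsqrtd.ext_iff]
    constructor
    · simp only [Zsqrtd.re_mul, a_succ]; push_cast; ring
    · simp only [Zsqrtd.im_mul, b_succ]; push_cast; ring

theorem norm_rel (m : ℕ) : (a m : ℤ) ^ 2 - 2 * (b m : ℤ) ^ 2 = (-1) ^ m := by
  induction m with
  | zero => simp [a, b, ab]
  | succ m ih =>
    rw [a_succ, b_succ, pow_succ (-1 : ℤ) m, ← ih]; push_cast; ring

/-- `√2` -/
def s : ℤ√2 := ⟨0, 1⟩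

theorem s_sq : s ^ 2 = ((2 : ℕ) : ℤ√2) := by
  rw [Zsqrtd.ext_iff, pow_two, Zsqrtd.re_mul, Zsqrtd.im_mul, Zsqrtd.re_natCast, Zsqrtd.im_natCast]
  simp [s]

theorem im_nat_mul_s (n : ℕ) : ((n : ℤ√2) * s).im = n := by
  rw [Zsqrtd.im_mul, Zsqrtd.re_natCast, Zsqrtd.im_natCast]; simp [s]

theorem im_mul_nat (c : ℤ√2) (n : ℕ) : (c * (n : ℤ√2)).im = c.im * n := by
  rw [Zsqrtd.im_mul, Zsqrtd.re_natCast, Zsqrtd.im_natCast]; simp

/-- the key divisibility -/
theorem key {L k : ℕ} (hk : k ∣ b L) : b L * k ∣ b (L * k) := by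
  have h1 : (⟨1, 1⟩ : ℤ√2) ^ (L * k) = ((a L : ℤ√2) + (b L : ℤ√2) * s) ^ k := by
    rw [pow_mul, zpow L]
    congr 1
    rw [Zsqrtd.ext_iff]
    constructor <;> simp [s]
  obtain ⟨c, hc⟩ := Polynomial.powAddExpansion (a L : ℤ√2) ((b L : ℤ√2) * s) k
  rw [hc, zpow (L * k)] at h1
  have h2 := congrArg Zsqrtd.im h1
  have e1 : ((a L : ℤ√2) ^ k).im = 0 := by
    rw [← Nat.cast_pow, Zsqrtd.im_natCast]
  have e2 : ((k : ℤ√2) * (a L : ℤ√2) ^ (k - 1) * ((b L : ℤ√2) * s)).im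
      = ((k * (a L) ^ (k - 1) * b L : ℕ) : ℤ) := by
    rw [← im_nat_mul_s]; congr 1; push_cast; ring
  have e3 : (c * ((b L : ℤ√2) * s) ^ 2).im = c.im * ((b L ^ 2 * 2 : ℕ) : ℤ) := by
    rw [← im_mul_nat]; congr 2; rw [mul_pow, s_sq]; push_cast; ring
  rw [Zsqrtd.im_add, Zsqrtd.im_add, e1, e2, e3] at h2
  have h3 : (((b L * k : ℕ)) : ℤ) ∣ ((b (L * k) : ℕ) : ℤ) := by
    obtain ⟨j, hj⟩ := hk
    refine ⟨(a L : ℤ) ^ (k - 1) + 2 * j * c.im, ?_⟩
    have h4 : (b L : ℤ) = k * j := by exact_mod_cast hj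
    have h5 : ((b (L * k) : ℕ) : ℤ) = 0 + ((k * (a L) ^ (k - 1) * b L : ℕ) : ℤ)
      + c.im * ((b L ^ 2 * 2 : ℕ) : ℤ) := h2
    rw [h5]
    push_cast
    rw [h4]
    ring
  exact_mod_cast h3

theorem key_dvd {L t : ℕ} : b L ∣ b (L * t) := by
  have h1 : (⟨1, 1⟩ : ℤ√2) ^ (L * t) = ((a L : ℤ√2) + (b L : ℤ√2) * s) ^ t := by
    rw [pow_mul, zpow L]
    congr 1
    rw [Zsqrtd.ext_iff]
    constructor <;> simp [s]
  obtain ⟨c, hc⟩ := Polynomial.powAddExpansion (a L : ℤ√2) ((b L : ℤ√2) * s) t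
  rw [hc, zpow (L * t)] at h1
  have h2 := congrArg Zsqrtd.im h1
  have e1 : ((a L : ℤ√2) ^ t).im = 0 := by
    rw [← Nat.cast_pow, Zsqrtd.im_natCast]
  have e2 : ((t : ℤ√2) * (a L : ℤ√2) ^ (t - 1) * ((b L : ℤ√2) * s)).im
      = ((t * (a L) ^ (t - 1) * b L : ℕ) : ℤ) := by
    rw [← im_nat_mul_s]; congr 1; push_cast; ring
  have e3 : (c * ((b L : ℤ√2) * s) ^ 2).im = c.im * ((b L ^ 2 * 2 : ℕ) : ℤ) := by
    rw [← im_mul_nat]; congr 2; rw [mul_pow, s_sq]; push_cast; ring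
  rw [Zsqrtd.im_add, Zsqrtd.im_add, e1, e2, e3] at h2
  have h3 : ((b L : ℕ) : ℤ) ∣ ((b (L * t) : ℕ) : ℤ) := by
    have h5 : ((b (L * t) : ℕ) : ℤ) = 0 + ((t * (a L) ^ (t - 1) * b L : ℕ) : ℤ)
      + c.im * ((b L ^ 2 * 2 : ℕ) : ℤ) := h2
    rw [h5]
    refine ⟨t * (a L : ℤ) ^ (t - 1) + c.im * b L * 2, ?_⟩
    push_cast
    ring
  exact_mod_cast h3

/-! ### parity and growth -/

theorem a_odd (m : ℕ) : a m % 2 = 1 := by
  induction m with
  | zero => rfl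
  | succ m ih => rw [a_succ]; omega

theorem b_odd {m : ℕ} (hm : m % 2 = 1) : b m % 2 = 1 := by
  obtain ⟨t, rfl⟩ : ∃ t, m = 2 * t + 1 := ⟨m / 2, by omega⟩
  have h : ∀ t, b (2 * t) % 2 = 0 := by
    intro t
    induction t with
    | zero => rfl
    | succ t ih =>
      have h1 := a_odd (2 * t)
      rw [show 2 * (t + 1) = (2 * t + 1) + 1 by ring, b_succ, b_succ, a_succ]; omega
  have h1 := a_odd (2 * t)
  have h2 := h t
  rw [b_succ]; omega

theorem growth (m : ℕ) (hm : 3 ≤ m) :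
    b m ≤ a m ∧ 2 * a m ≤ 3 * b m ∧ 7 * b m ≤ 5 * a m ∧ 12 * a m ≤ 17 * b m := by
  induction m, hm using Nat.le_induction with
  | base => decide
  | succ m hm ih => rw [a_succ, b_succ]; omega

theorem b_le (m : ℕ) (hm : 3 ≤ m) : (b m : ℝ) ≤ (29 / 12 : ℝ) ^ m := by
  induction m, hm using Nat.le_induction with
  | base => norm_num [b, ab]
  | succ m hm ih =>
    have h := (growth m hm).2.2.2
    have h1 : (12 : ℝ) * a m ≤ 17 * b m := by exact_mod_cast h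
    rw [b_succ, pow_succ]
    push_cast
    nlinarith

theorem b_ge (m : ℕ) (hm : 8 ≤ m) : 3 * m ^ 2 ≤ b m := by
  induction m, hm using Nat.le_induction with
  | base => decide
  | succ m hm ih =>
    have h := (growth m (by omega)).1
    rw [b_succ]
    nlinarith

/-! ### the sequence of indices -/

def Good (m : ℕ) : Prop := m % 2 = 1 ∧ 21 ≤ m ∧ m ^ 2 ≤ 3 * Q2 (b m)

theorem b_pos {m : ℕ} (hm : 3 ≤ m) : 0 < b m := by
  induction m, hm using Nat.le_induction with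
  | base => decide
  | succ m hm ih => rw [b_succ]; omega

theorem good21 : Good 21 := by
  refine ⟨rfl, le_refl _, ?_⟩
  have h1 : (169 : ℕ) ∣ b 21 := by decide +kernel
  have h2 : Pow2 169 := by
    have := pow2_sq 13
    exact this
  have h3 := Nat.le_of_dvd (Q2_pos _) (dvd_Q2 (b_pos (by norm_num)).ne' h2 h1)
  omega

theorem step {m : ℕ} (h : Good m) : ∃ m', m < m' ∧ Good m' := by
  obtain ⟨h1, h2, h3⟩ := h
  have hb : 0 < b m := b_pos (by omega)
  obtain ⟨k, hk⟩ := Q2_dvd (b m)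
  have hkb : k ∣ b m := ⟨Q2 (b m), by rw [mul_comm]; exact hk⟩
  have hk0 : k ≠ 0 := fun h0 => by rw [h0, mul_zero] at hk; omega
  have hkodd : k % 2 = 1 := by
    have := b_odd h1
    by_contra hc
    have h2k : 2 ∣ k := by omega
    have := dvd_trans h2k hkb
    omega
  by_cases hk1 : k = 1
  · -- `b m` is powerful
    refine ⟨m * 3, by omega, by omega, by omega, ?_⟩
    have hp : Pow2 (b m) := by
      have := Q2_pow2 (b m)
      rw [hk1, mul_one] at hk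
      rw [hk]; exact this
    have h4 := Nat.le_of_dvd (Q2_pos _) (dvd_Q2 (b_pos (m := m * 3) (by omega)).ne' hp
      (key_dvd (t := 3)))
    have h5 := b_ge m (by omega)
    nlinarith
  · have hk3 : 3 ≤ k := by omega
    have hmk : m * 3 ≤ m * k := Nat.mul_le_mul_left m hk3
    refine ⟨m * k, by omega, ?_, by omega, ?_⟩
    · rw [Nat.mul_mod, h1, hkodd]
    · have h4 : Pow2 (b m * k) := pow2_mul hb.ne' hk
      have h5 := Nat.le_of_dvd (Q2_pos _) (dvd_Q2 (b_pos (m := m * k) (by omega)).ne' h4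
        (key hkb))
      calc (m * k) ^ 2 = m ^ 2 * k ^ 2 := by ring
        _ ≤ (3 * Q2 (b m)) * k ^ 2 := Nat.mul_le_mul_right _ h3
        _ = 3 * ((Q2 (b m) * k) * k) := by ring
        _ = 3 * (b m * k) := by rw [← hk]
        _ ≤ 3 * Q2 (b (m * k)) := Nat.mul_le_mul_left 3 h5

theorem exists_good (N : ℕ) : ∃ m, N ≤ m ∧ Good m := by
  induction N with
  | zero => exact ⟨21, by omega, good21⟩
  | succ N ih =>
    obtain ⟨m, hm, hg⟩ := ih
    obtain ⟨m', h1, h2⟩ := step hg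
    exact ⟨m', by omega, h2⟩

end Pool.Agent.N319.PW
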