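import Pool.Agent.N319.PW

set_option autoImplicit false
open Finset

namespace Pool.Agent.N319.PW

theorem log_le : Real.log (29 / 12) ≤ 9 / 10 := by
  rw [Real.log_le_iff_le_exp (by norm_num)]
  have h1 := Real.quadratic_le_exp_of_nonneg (x := 3 / 10) (by norm_num)
  have h2 : Real.exp (9 / 10) = Real.exp (3 / 10) ^ 3 := by
    rw [← Real.exp_nat_mul]; norm_num
  rw [h2]
  have h3 : (29 / 12 : ℝ) ≤ (1 + 3 / 10 + (3 / 10) ^ 2 / 2) ^ 3 := by norm_num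
  exact le_trans h3 (pow_le_pow_left₀ (by norm_num) h1 3)

/-- The number `n` attached to a good index. -/
theorem main_index {m : ℕ} (hg : Good m) :
    ∃ n : ℕ, m ≤ n ∧ Q2 n = n ∧ Q2 (n + 1) = n + 1 ∧ b m ∣ n + 2 ∧ Pow2 n ∧ Pow2 (n + 1) ∧
      (n : ℝ) ^ 2 * (Real.log n) ^ 2 / 10 ≤ (n : ℝ) * (n + 1) * Q2 (b m) := by
  obtain ⟨h1, h2, h3⟩ := hg
  obtain ⟨g1, g2, g3, g4⟩ := growth m (by omega)
  have hb := b_pos (m := m) (by omega)
  have hbig := b_ge m (by omega)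
  have ha1 := a_odd m
  have hb1 := b_odd h1
  have hnorm : (a m : ℤ) ^ 2 - 2 * (b m : ℤ) ^ 2 = -1 := by
    rw [norm_rel]; exact Odd.neg_one_pow (Nat.odd_iff.2 h1)
  obtain ⟨z, hz⟩ : ∃ z, a m = b m + 2 * z := ⟨(a m - b m) / 2, by omega⟩
  obtain ⟨y, hy⟩ : ∃ y, 2 * b m = a m + y := ⟨2 * b m - a m, by omega⟩
  obtain ⟨x, hx⟩ : ∃ x, 3 * b m = 2 * a m + x := ⟨3 * b m - 2 * a m, by omega⟩
  have hz5 : b m ≤ 5 * z := by omega
  have hyb : y ≤ b m := by omega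
  have e1 : 8 * z ^ 2 + 1 = y ^ 2 := by
    zify at hz hy ⊢
    have hy' : (y : ℤ) = 2 * b m - a m := by linarith
    have hz' : (a m : ℤ) = b m + 2 * z := hz
    rw [hy', hz']
    rw [hz'] at hnorm
    linear_combination hnorm
  have e2 : 8 * z ^ 2 + 2 = b m * (2 * x) := by
    zify at hz hx ⊢
    have hx' : (x : ℤ) = 3 * b m - 2 * a m := by linarith
    have hz' : (a m : ℤ) = b m + 2 * z := hz
    rw [hx', hz']
    rw [hz'] at hnorm
    linear_combination 2 * hnorm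
  have hz0 : 0 < z := by omega
  have hn0 : 8 * z ^ 2 ≠ 0 := by positivity
  have p1 : Pow2 (8 * z ^ 2) := by
    intro p hp h
    rcases (hp.dvd_mul).1 h with h | h
    · have : p = 2 := by
        have : p ∣ 2 ^ 3 := h
        exact (Nat.prime_dvd_prime_iff_eq hp Nat.prime_two).1 (hp.dvd_of_dvd_pow this)
      subst this
      exact ⟨2 * z ^ 2, by ring⟩
    · exact dvd_mul_of_dvd_right (pow2_sq z p hp h) _
  have p2 : Pow2 (8 * z ^ 2 + 1) := by rw [e1]; exact pow2_sq y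
  have hmz : m ≤ 8 * z ^ 2 := by nlinarith
  refine ⟨8 * z ^ 2, hmz, Q2_of_pow2 hn0 p1, Q2_of_pow2 (by omega) p2, ⟨2 * x, e2⟩, p1, p2, ?_⟩
  -- the estimate
  set n : ℕ := 8 * z ^ 2 with hn
  have hn1 : (1 : ℝ) ≤ n := by
    have : 1 ≤ n := by omega
    exact_mod_cast this
  have hnb : (n : ℝ) ≤ (b m : ℝ) ^ 2 := by
    have h5 : n ≤ b m ^ 2 := by
      have : y ^ 2 ≤ b m ^ 2 := Nat.pow_le_pow_left hyb 2
      omega
    exact_mod_cast h5
  have hlog0 : 0 ≤ Real.log n := Real.log_nonneg hn1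
  have hlog : Real.log n ≤ 9 / 5 * m := by
    have hb' := b_le m (by omega)
    have hbpos : (0 : ℝ) < b m := by exact_mod_cast hb
    calc Real.log n ≤ Real.log ((b m : ℝ) ^ 2) := Real.log_le_log (by linarith) hnb
      _ = 2 * Real.log (b m) := by rw [Real.log_pow]; norm_num
      _ ≤ 2 * Real.log ((29 / 12 : ℝ) ^ m) := by
          have := Real.log_le_log hbpos hb'
          linarith
      _ = 2 * (m * Real.log (29 / 12)) := by rw [Real.log_pow]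
      _ ≤ 2 * (m * (9 / 10)) := by
          have h6 : (0 : ℝ) ≤ m := Nat.cast_nonneg m
          have := mul_le_mul_of_nonneg_left log_le h6
          linarith
      _ = _ := by ring
  have hlog2 : (Real.log n) ^ 2 ≤ (9 / 5 * m) ^ 2 := pow_le_pow_left₀ hlog0 hlog 2
  have h3' : (m : ℝ) ^ 2 ≤ 3 * Q2 (b m) := by exact_mod_cast h3
  have hQ : (0 : ℝ) ≤ Q2 (b m) := Nat.cast_nonneg _
  have h7 : (Real.log n) ^ 2 / 10 ≤ Q2 (b m) := by nlinarith
  have h8 : (0 : ℝ) ≤ (n : ℝ) ^ 2 := by positivity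
  calc (n : ℝ) ^ 2 * (Real.log n) ^ 2 / 10 = (n : ℝ) ^ 2 * ((Real.log n) ^ 2 / 10) := by ring
    _ ≤ (n : ℝ) ^ 2 * Q2 (b m) := mul_le_mul_of_nonneg_left h7 h8
    _ ≤ (n : ℝ) * (n + 1) * Q2 (b m) := by
        apply mul_le_mul_of_nonneg_right _ hQ
        nlinarith

theorem triple (N : ℕ) : ∃ n, N ≤ n ∧ 1 ≤ n ∧
    (n : ℝ) ^ 2 * (Real.log n) ^ 2 / 10 ≤ (Q2 n : ℝ) * Q2 (n + 1) * Q2 (n + 2) := by
  obtain ⟨m, hm, hg⟩ := exists_good N
  obtain ⟨n, h1, h2, h3, h4, h5, h6, h7⟩ := main_index hg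
  have hg2 := hg.2.1
  refine ⟨n, by omega, by omega, le_trans h7 ?_⟩
  rw [h2, h3]
  have h8 : Q2 (b m) ≤ Q2 (n + 2) := Q2_mono (by omega) h4
  have h9 : (Q2 (b m) : ℝ) ≤ Q2 (n + 2) := by exact_mod_cast h8
  push_cast
  exact mul_le_mul_of_nonneg_left h9 (by positivity)

theorem product (l : ℕ) (hl : 2 ≤ l) (N : ℕ) : ∃ n, N ≤ n ∧ 1 ≤ n ∧
    (n : ℝ) ^ 2 * (Real.log n) ^ 2 / 10 ≤ (Q2 (P l n) : ℝ) := by
  obtain ⟨m, hm, hg⟩ := exists_good N
  obtain ⟨n, h1, h2, h3, h4, h5, h6, h7⟩ := main_index hg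
  have hg2 := hg.2.1
  refine ⟨n, by omega, by omega, le_trans h7 ?_⟩
  have hP0 : P l n ≠ 0 := by
    unfold P
    rw [Finset.prod_ne_zero_iff]
    intro i _
    omega
  have hP2 : n * (n + 1) * (n + 2) ∣ P l n := by
    have h8 : ∏ i ∈ range 3, (n + i) ∣ P l n :=
      Finset.prod_dvd_prod_of_subset _ _ _ (Finset.range_subset_range.2 (by omega))
    simpa [Finset.prod_range_succ] using h8
  have h9 : n * (n + 1) * Q2 (b m) ∣ P l n :=
    dvd_trans (mul_dvd_mul_left _ (dvd_trans (Q2_dvd _) h4)) hP2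
  have h10 : Pow2 (n * (n + 1) * Q2 (b m)) := Pow2.mul (Pow2.mul h5 h6) (Q2_pow2 _)
  have h11 := Nat.le_of_dvd (Q2_pos _) (dvd_Q2 hP0 h10 h9)
  exact_mod_cast h11

theorem limsup_top (l : ℕ) (hl : 2 ≤ l) :
    Filter.limsup (fun n : ℕ => (((Q2 (P l n) : ℝ) / (n : ℝ) ^ 2 : ℝ) : EReal)) Filter.atTop
      = ⊤ := by
  rw [EReal.eq_top_iff_forall_lt]
  intro c
  have key : ∃ᶠ n : ℕ in Filter.atTop,
      ((c + 1 : ℝ) : EReal) ≤ (((Q2 (P l n) : ℝ) / (n : ℝ) ^ 2 : ℝ) : EReal) := by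
    rw [Filter.frequently_atTop]
    intro N
    -- `log n` is large
    obtain ⟨M, hM⟩ : ∃ M : ℕ, ∀ n : ℕ, M ≤ n → 10 * (|c| + 1) + 1 ≤ Real.log n := by
      have h := (Real.tendsto_log_atTop.comp tendsto_natCast_atTop_atTop).eventually_ge_atTop
        (10 * (|c| + 1) + 1)
      rw [Filter.eventually_atTop] at h
      exact h
    obtain ⟨n, hn, hn1, hQ⟩ := product l hl (max N M)
    refine ⟨n, le_trans (le_max_left _ _) hn, ?_⟩
    have hlog := hM n (le_trans (le_max_right _ _) hn)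
    rw [EReal.coe_le_coe_iff]
    have hn2 : (0 : ℝ) < (n : ℝ) ^ 2 := by
      have : (0 : ℝ) < n := by exact_mod_cast hn1
      positivity
    rw [le_div_iff₀ hn2]
    refine le_trans ?_ hQ
    have habs : c ≤ |c| := le_abs_self c
    have habs0 : 0 ≤ |c| := abs_nonneg c
    have h12 : (c + 1) ≤ (Real.log n) ^ 2 / 10 := by
      have h13 : 1 ≤ Real.log n := by linarith
      have h14 : Real.log n ≤ (Real.log n) ^ 2 := by nlinarith
      linarith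
    calc (c + 1) * (n : ℝ) ^ 2 ≤ ((Real.log n) ^ 2 / 10) * (n : ℝ) ^ 2 :=
          mul_le_mul_of_nonneg_right h12 hn2.le
      _ = (n : ℝ) ^ 2 * (Real.log n) ^ 2 / 10 := by ring
  have h1 := Filter.le_limsup_of_frequently_le key
  refine lt_of_lt_of_le ?_ h1
  rw [EReal.coe_lt_coe_iff]
  linarith

end Pool.Agent.N319.PW
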